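import Pool.Agent.Helper82.MS.Final

set_option autoImplicit false

open Set
open scoped Manifold ContDiff

namespace Pool.Agent.Results.MP_1494ae_an.NoShadowing

open Pool.Agent.Helper82.MS

/-- For every closed manifold `M` of dimension `d ≥ 1` and every `C^n` diffeomorphism `f` of `M`
(`n ≥ 1`) whose non-wandering set is finite and consists of hyperbolic periodic points (for
instance every Morse-Smale diffeomorphism), the induced map `C(f)` on the hyperspace of
subcontinua of `M` does not have the shadowing property. -/
theorem result {n : WithTop ℕ∞} (hn : 1 ≤ n) {d : ℕ} (hd : 1 ≤ d) {M : Type*} [MetricSpace M]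
    [CompactSpace M] [Nonempty M] [ChartedSpace (EuclideanSpace ℝ (Fin d)) M]
    [IsManifold (𝓡 d) n M] (f : M → M) (hf : IsDiffeomorphism d n f)
    (hfin : {x | IsNonwandering f x}.Finite)
    (hhyp : ∀ p, IsNonwandering f p → IsHyperbolicPeriodicPoint d f p) (hc : Continuous f) :
    ¬ HasShadowing (inducedMap f hc) := by
  obtain ⟨f', h1, h2, h3, h4⟩ := hf
  exact final_aux hn hd (f := ⟨⟨f, f', h1, h2⟩, h3, h4⟩) hfin hhyp

end Pool.Agent.Results.MP_1494ae_an.NoShadowing
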